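import Mathlib
import Pool.Agent.U462.RM.GrowLaw
import Pool.Agent.Helper923.PNT
import Pool.Agent.U53.HL.Five3

set_option autoImplicit false

/-!
# The limit `a(n) / π(10 ^ n)` exists and lies in `[1.77, 1.78]` in every sequential random model

The constant `C = ∏_p (1 - ω(p) / p) (1 - 1 / p)⁻¹` of the problem is evaluated: `1.771 < C / 2 < 1.776`
(from `L(1, χ_5)` and the Euler product; the product converges only conditionally). In every sequential
random model of the primes, with arbitrary dependence between the steps, `a(n) / π(10 ^ n) → C / 2` almost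
surely.
-/

namespace Pool.Agent.Results.MP_d57abb_nt.EverySequentialModel

open MeasureTheory Filter Polynomial
open scoped Topology

/-- the primes `p ≤ y` -/
def primesUpTo (y : ℕ) : Finset ℕ := (Finset.range (y + 1)).filter Nat.Prime

/-- `∏ (1 - 1 / p)⁻¹` over the primes `p ≤ y` -/
noncomputable def mertensProduct (y : ℕ) : ℝ := ∏ p ∈ primesUpTo y, (1 - 1 / (p : ℝ))⁻¹

/-- `m` has no prime factor `p ≤ z m` -/
def Sifted (z : ℕ → ℕ) (m : ℕ) : Prop := ∀ p : ℕ, p.Prime → p ≤ z m → ¬ p ∣ m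

/-- A sequential random model of the primes with sieve heights `z`: the random set of the `m` with
`ω ∈ A m` is built step by step (`A m` belongs to the `m`-th σ-algebra of the filtration), contains only
numbers `m` without prime factors `p ≤ z m`, and almost surely the conditional probability, given the
first `n` steps, that `n + 1` is chosen is asymptotic to `∏_{p ≤ z (n + 1)} (1 - 1 / p)⁻¹ / log n` as `n`
tends to infinity through the integers for which `n + 1` has no prime factor `p ≤ z (n + 1)`. -/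
structure IsSequentialModel {Ω : Type} [m0 : MeasurableSpace Ω] (μ : Measure Ω) (ℱ : Filtration ℕ m0)
    (A : ℕ → Set Ω) (z : ℕ → ℕ) : Prop where
  adapted : ∀ m, MeasurableSet[ℱ m] (A m)
  sifted : ∀ m, ¬ Sifted z m → A m = ∅
  density : ∀ᵐ ω ∂μ, Tendsto
    (fun n : ℕ => (μ[(A (n + 1)).indicator (fun _ => (1 : ℝ)) | ℱ n]) ω * Real.log n / mertensProduct (z (n + 1)))
    (atTop ⊓ 𝓟 {n : ℕ | Sifted z (n + 1)}) (𝓝 1)

/-- the number `ω(p)` of the residues `k` modulo `p` for which `p` divides `k ^ 2 + 3 k + 1` -/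
def rootCount (p : ℕ) : ℕ := ((Finset.range p).filter (fun k : ℕ => p ∣ k ^ 2 + 3 * k + 1)).card

/-- the number of the `k` with `1 ≤ k ≤ N` for which `k ^ 2 + 3 k + 1` belongs to `S` -/
noncomputable def valueCount (S : Set ℕ) (N : ℕ) : ℕ := {k : ℕ | 1 ≤ k ∧ k ≤ N ∧ k ^ 2 + 3 * k + 1 ∈ S}.ncard

/-- the number of the elements `m` of `S` with `1 ≤ m ≤ N` -/
noncomputable def elementCount (S : Set ℕ) (N : ℕ) : ℕ := {m : ℕ | 1 ≤ m ∧ m ≤ N ∧ m ∈ S}.ncard

/-- counting from `1` to `N` instead of from `0` to `N - 1` -/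
lemma shift (T : Set ℕ) {c : ℝ}
    (h : Tendsto (fun x : ℕ => ({n : ℕ | n < x ∧ n ∈ T}.ncard : ℝ) * Real.log x / x) atTop (𝓝 c)) :
    Tendsto (fun N : ℕ => ({n : ℕ | 1 ≤ n ∧ n ≤ N ∧ n ∈ T}.ncard : ℝ) * Real.log N / N) atTop (𝓝 c) := by
  have h5 : ∀ N : ℕ, |({n : ℕ | 1 ≤ n ∧ n ≤ N ∧ n ∈ T}.ncard : ℝ) - ({n : ℕ | n < N ∧ n ∈ T}.ncard : ℝ)| ≤ 1 := by
    intro N
    have k1 : {n : ℕ | 1 ≤ n ∧ n ≤ N ∧ n ∈ T}.ncard ≤ {n : ℕ | n < N ∧ n ∈ T}.ncard + 1 := by
      have hs : {n : ℕ | 1 ≤ n ∧ n ≤ N ∧ n ∈ T} ⊆ insert N {n : ℕ | n < N ∧ n ∈ T} := by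
        rintro n ⟨g1, g2, g3⟩
        rcases g2.eq_or_lt with g | g
        · exact Or.inl g
        · exact Or.inr ⟨g, g3⟩
      refine (Set.ncard_le_ncard hs (((Set.finite_Iio N).subset fun n hn => hn.1).insert N)).trans
        (Set.ncard_insert_le _ _)
    have k2 : {n : ℕ | n < N ∧ n ∈ T}.ncard ≤ {n : ℕ | 1 ≤ n ∧ n ≤ N ∧ n ∈ T}.ncard + 1 := by
      have hs : {n : ℕ | n < N ∧ n ∈ T} ⊆ insert 0 {n : ℕ | 1 ≤ n ∧ n ≤ N ∧ n ∈ T} := by
        rintro n ⟨g1, g2⟩
        rcases Nat.eq_zero_or_pos n with g | g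
        · exact Or.inl g
        · exact Or.inr ⟨g, g1.le, g2⟩
      refine (Set.ncard_le_ncard hs (((Set.finite_Iic N).subset fun n hn => hn.2.1).insert 0)).trans
        (Set.ncard_insert_le _ _)
    have k1' : ({n : ℕ | 1 ≤ n ∧ n ≤ N ∧ n ∈ T}.ncard : ℝ) ≤ {n : ℕ | n < N ∧ n ∈ T}.ncard + 1 := by exact_mod_cast k1
    have k2' : ({n : ℕ | n < N ∧ n ∈ T}.ncard : ℝ) ≤ {n : ℕ | 1 ≤ n ∧ n ≤ N ∧ n ∈ T}.ncard + 1 := by exact_mod_cast k2
    rw [abs_le]
    constructor <;> linarith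
  have h6 : Tendsto (fun N : ℕ => (({n : ℕ | 1 ≤ n ∧ n ≤ N ∧ n ∈ T}.ncard : ℝ) - ({n : ℕ | n < N ∧ n ∈ T}.ncard : ℝ)) *
      (Real.log N / N)) atTop (𝓝 0) := by
    have h20 : Tendsto (fun x : ℝ => Real.log x ^ (1 : ℝ) / x ^ (1 : ℝ)) atTop (𝓝 0) :=
      (isLittleO_log_rpow_rpow_atTop (1 : ℝ) one_pos).tendsto_div_nhds_zero
    have h21 : Tendsto (fun x : ℕ => 1 * (Real.log x / x)) atTop (𝓝 (1 * 0)) :=
      ((h20.comp tendsto_natCast_atTop_atTop).congr fun x => by simp).const_mul _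
    rw [mul_zero] at h21
    refine squeeze_zero_norm (fun x => ?_) h21
    have hL := Real.log_natCast_nonneg x
    rw [Real.norm_eq_abs, abs_mul, abs_of_nonneg (show 0 ≤ Real.log (x : ℝ) / x by positivity)]
    exact mul_le_mul_of_nonneg_right (h5 x) (by positivity)
  have h7 := h.add h6
  rw [add_zero] at h7
  refine h7.congr fun x => ?_
  ring

/-- the quotient of two counting functions of size `x / log x` -/
lemma ratio {u v : ℕ → ℝ} {c : ℝ} (hu : Tendsto (fun N : ℕ => u N * Real.log N / N) atTop (𝓝 c))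
    (hv : Tendsto (fun N : ℕ => v N * Real.log N / N) atTop (𝓝 1)) :
    Tendsto (fun N : ℕ => u N / v N) atTop (𝓝 c) := by
  have h := hu.div hv one_ne_zero
  rw [div_one] at h
  refine h.congr' ?_
  filter_upwards [eventually_gt_atTop 1] with N hN
  have h1 : (1 : ℝ) < N := by exact_mod_cast hN
  have h2 : 0 < Real.log (N : ℝ) := Real.log_pos h1
  have h3 : (N : ℝ) ≠ 0 := by positivity
  simp only [Pi.div_apply]
  rw [div_div_div_cancel_right₀ h3, mul_div_mul_right _ _ h2.ne']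

/-- the prime number theorem -/
lemma pnt : Tendsto (fun n : ℕ => (Nat.primeCounting n : ℝ) * Real.log n / n) atTop (𝓝 1) := by
  have h := Pool.Agent.Helper923.PNT.pi_tendsto.comp (tendsto_natCast_atTop_atTop (R := ℝ))
  refine h.congr fun n => ?_
  simp only [Function.comp, Nat.floor_natCast]

open Pool.Agent.U53.HL (CP xi)

/-- the polynomial -/
noncomputable def FF : ℤ[X] := X ^ 2 + C 3 * X + C 1

lemma FF_eval (n : ℤ) : FF.eval n = n ^ 2 + 3 * n + 1 := by
  unfold FF
  simp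

lemma FF_deg : FF.natDegree = 2 := by
  unfold FF
  compute_degree!

lemma FF_lead : FF.leadingCoeff = 1 := by
  have : FF.Monic := by
    unfold FF
    monicity!
  exact this.leadingCoeff

lemma omega_FF (p : ℕ) : Pool.Agent.R528.RM.omegaF {FF} p = rootCount p := by
  unfold Pool.Agent.R528.RM.omegaF rootCount
  rw [← Set.ncard_coe_finset]
  congr 1
  ext r
  simp only [Finset.prod_singleton, FF_eval, Set.mem_ofPred_eq, Finset.coe_filter, Finset.mem_range]
  refine and_congr_right fun _ => ?_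
  rw [show ((r : ℤ)) ^ 2 + 3 * r + 1 = ((r ^ 2 + 3 * r + 1 : ℕ) : ℤ) by push_cast; ring]
  exact Int.natCast_dvd_natCast

lemma factor {p : ℕ} (hp : p.Prime) (w : ℕ) (x : ℤ) (h : (w : ℤ) = 1 + x) :
    (1 - (w : ℝ) / p) / (1 - 1 / (p : ℝ)) = 1 - (x : ℝ) / ((p : ℝ) - 1) := by
  have h2 : (2 : ℝ) ≤ p := by exact_mod_cast hp.two_le
  have h5 : (p : ℝ) - 1 ≠ 0 := by linarith
  have h6 : (p : ℝ) ≠ 0 := by linarith
  have h4 : (w : ℝ) = 1 + (x : ℝ) := by exact_mod_cast h
  rw [h4]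
  field_simp
  ring

lemma prod_FF (j : ℕ) : Pool.Agent.U462.RM.CC FF j = CP (j + 1) := by
  unfold Pool.Agent.U462.RM.CC Pool.Agent.U462.RM.PS CP
  refine Finset.prod_congr rfl fun p hp => ?_
  have hpp := (Finset.mem_filter.1 hp).2
  rw [omega_FF]
  exact factor hpp _ _ (Pool.Agent.U53.HL.roots p hpp)

lemma prod_C (y : ℕ) : ∏ p ∈ primesUpTo y, (1 - (rootCount p : ℝ) / p) * (1 - 1 / (p : ℝ))⁻¹ = CP (y + 1) := by
  unfold CP primesUpTo
  refine Finset.prod_congr rfl fun p hp => ?_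
  have hpp := (Finset.mem_filter.1 hp).2
  rw [← div_eq_mul_inv]
  exact factor hpp _ _ (Pool.Agent.U53.HL.roots p hpp)

lemma omega_X {p : ℕ} (hp : p.Prime) : Pool.Agent.R528.RM.omegaF {X} p = 1 := by
  unfold Pool.Agent.R528.RM.omegaF
  rw [Set.ncard_eq_one]
  refine ⟨0, ?_⟩
  ext r
  simp only [Finset.prod_singleton, eval_X, Set.mem_ofPred_eq, Set.mem_singleton_iff]
  constructor
  · rintro ⟨h1, h2⟩
    exact Nat.eq_zero_of_dvd_of_lt (Int.natCast_dvd_natCast.1 h2) h1
  · rintro rfl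
    exact ⟨hp.pos, by simp⟩

lemma prod_X (j : ℕ) : Pool.Agent.U462.RM.CC X j = 1 := by
  unfold Pool.Agent.U462.RM.CC Pool.Agent.U462.RM.PS
  refine Finset.prod_eq_one fun p hp => ?_
  have hpp := (Finset.mem_filter.1 hp).2
  rw [omega_X hpp]
  have h2 : (2 : ℝ) ≤ p := by exact_mod_cast hpp.two_le
  have h6 : (1 : ℝ) - 1 / (p : ℝ) ≠ 0 := by
    have : (1 : ℝ) / p < 1 := by rw [div_lt_one (by linarith)]; linarith
    linarith
  push_cast
  exact div_self h6

/-- **Q1 holds almost surely in every sequential random model of the primes.** The product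
`∏_{p ≤ y} (1 - ω(p) / p) (1 - 1 / p)⁻¹` converges to a constant `C` with `1.771 < C / 2 < 1.776`. Let `z` be
nondecreasing and unbounded with `z m / log m → 0`, and let `A` be any sequential random model of the primes
with sieve heights `z`, with arbitrary dependence between the steps. Then almost surely, with `S` the random
set: (1) `#{1 ≤ k ≤ 10 ^ n : k ^ 2 + 3 k + 1 ∈ S} / π(10 ^ n)` has a limit `L` with `1.77 ≤ L ≤ 1.78`, namely
`C / 2`; (2) so has the quotient by `#{1 ≤ m ≤ 10 ^ n : m ∈ S}`; (3) both hold along all integers `N` in place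
of the powers `10 ^ n`. (4) Independent events, impossible at the numbers which are not sifted and otherwise
with probabilities asymptotic to `∏_{p ≤ z m} (1 - 1 / p)⁻¹ / log m` (the model of Cramér and Granville), form
such a model. -/
theorem result :
    (∃ C : ℝ, Tendsto (fun y : ℕ => ∏ p ∈ primesUpTo y, (1 - (rootCount p : ℝ) / p) * (1 - 1 / (p : ℝ))⁻¹)
        atTop (𝓝 C) ∧ 1.771 < C / 2 ∧ C / 2 < 1.776 ∧
      ∀ (Ω : Type) (m0 : MeasurableSpace Ω) (μ : Measure Ω) (_ : IsProbabilityMeasure μ)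
      (ℱ : Filtration ℕ m0) (A : ℕ → Set Ω) (z : ℕ → ℕ), Monotone z → Tendsto z atTop atTop →
      Tendsto (fun m : ℕ => (z m : ℝ) / Real.log m) atTop (𝓝 0) → IsSequentialModel μ ℱ A z →
      ∀ᵐ ω ∂μ,
        (∃ L : ℝ, Tendsto (fun n : ℕ => (valueCount {m | ω ∈ A m} (10 ^ n) : ℝ) / Nat.primeCounting (10 ^ n))
          atTop (𝓝 L) ∧ 1.77 ≤ L ∧ L ≤ 1.78) ∧
        (∃ L : ℝ, Tendsto (fun n : ℕ => (valueCount {m | ω ∈ A m} (10 ^ n) : ℝ) /
          elementCount {m | ω ∈ A m} (10 ^ n)) atTop (𝓝 L) ∧ 1.77 ≤ L ∧ L ≤ 1.78) ∧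
        Tendsto (fun N : ℕ => (valueCount {m | ω ∈ A m} N : ℝ) / Nat.primeCounting N) atTop (𝓝 (C / 2)) ∧
        Tendsto (fun N : ℕ => (valueCount {m | ω ∈ A m} N : ℝ) / elementCount {m | ω ∈ A m} N) atTop
          (𝓝 (C / 2))) ∧
    (∀ (Ω : Type) (m0 : MeasurableSpace Ω) (μ : Measure Ω) (_ : IsProbabilityMeasure μ)
      (A : ℕ → Set Ω) (hm : ∀ m, MeasurableSet (A m)) (z : ℕ → ℕ), ProbabilityTheory.iIndepSet A μ →
      (∀ m, ¬ Sifted z m → A m = ∅) →
      Tendsto (fun m : ℕ => μ.real (A m) * Real.log m / mertensProduct (z m)) (atTop ⊓ 𝓟 {m : ℕ | Sifted z m})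
        (𝓝 1) →
      IsSequentialModel μ (filtrationOfSet hm) A z) := by
  refine ⟨⟨Pool.Agent.U53.HL.CC, ?_, Pool.Agent.U53.HL.CC_bounds.1, Pool.Agent.U53.HL.CC_bounds.2, ?_⟩, ?_⟩
  · exact (Pool.Agent.U53.HL.CC_lim.comp (tendsto_add_atTop_nat 1)).congr fun y => (prod_C y).symm
  · intro Ω m0 μ _ ℱ A z hz hz1 hz2 hA
    have hall := Pool.Agent.U462.RM.law_all (μ := μ) hA.adapted hz hz1 hz2 hA.sifted hA.density
    filter_upwards [hall] with ω hω
    obtain ⟨hC1, hC2⟩ := Pool.Agent.U53.HL.CC_bounds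
    -- the values
    have h1 := hω FF (by rw [FF_deg]; norm_num) (by rw [FF_lead]; norm_num) Pool.Agent.U53.HL.CC
      Pool.Agent.U53.HL.CC_pos
      ((Pool.Agent.U53.HL.CC_lim.comp (tendsto_add_atTop_nat 1)).congr fun j => (prod_FF j).symm)
    rw [FF_deg] at h1
    have h2 : Tendsto (fun N : ℕ => (valueCount {m | ω ∈ A m} N : ℝ) * Real.log N / N) atTop
        (𝓝 (Pool.Agent.U53.HL.CC / 2)) := by
      have h3 := shift {k : ℕ | k ^ 2 + 3 * k + 1 ∈ {m | ω ∈ A m}} (c := Pool.Agent.U53.HL.CC / 2) ?_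
      · exact h3
      · refine h1.congr fun x => ?_
        unfold Pool.Agent.U462.RM.valCount
        congr 4
        ext n
        simp only [Set.mem_ofPred_eq, FF_eval]
        refine and_congr_right fun _ => ?_
        constructor
        · rintro ⟨m, h1, h2⟩
          have : m = n ^ 2 + 3 * n + 1 := by exact_mod_cast h2
          rwa [← this]
        · intro h
          exact ⟨n ^ 2 + 3 * n + 1, h, by push_cast; ring⟩
    -- the elements
    have h4 := hω X (by rw [natDegree_X]; norm_num) (by rw [leadingCoeff_X]; norm_num) 1 one_pos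
      (tendsto_const_nhds.congr fun j => (prod_X j).symm)
    rw [natDegree_X] at h4
    have h5 : Tendsto (fun N : ℕ => (elementCount {m | ω ∈ A m} N : ℝ) * Real.log N / N) atTop (𝓝 1) := by
      have h3 := shift {m | ω ∈ A m} (c := 1) ?_
      · exact h3
      · have h6 : Tendsto (fun x : ℕ => (Pool.Agent.U462.RM.valCount {a | ω ∈ A a} X x : ℝ) * Real.log x / x)
            atTop (𝓝 1) := by simpa using h4
        refine h6.congr fun x => ?_
        unfold Pool.Agent.U462.RM.valCount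
        congr 4
        ext n
        simp only [Set.mem_ofPred_eq, eval_X]
        refine and_congr_right fun _ => ?_
        constructor
        · rintro ⟨m, h1, h2⟩
          have : m = n := by exact_mod_cast h2
          rwa [← this]
        · intro h
          exact ⟨n, h, rfl⟩
    have h7 := ratio (u := fun N => (valueCount {m | ω ∈ A m} N : ℝ))
      (v := fun N => (Nat.primeCounting N : ℝ)) h2 pnt
    have h8 := ratio (u := fun N => (valueCount {m | ω ∈ A m} N : ℝ))
      (v := fun N => (elementCount {m | ω ∈ A m} N : ℝ)) h2 h5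
    have h9 : Tendsto (fun n : ℕ => 10 ^ n) atTop atTop := tendsto_pow_atTop_atTop_of_one_lt (by norm_num)
    refine ⟨⟨_, h7.comp h9, by norm_num at hC1 ⊢; linarith, by norm_num at hC2 ⊢; linarith⟩,
      ⟨_, h8.comp h9, by norm_num at hC1 ⊢; linarith, by norm_num at hC2 ⊢; linarith⟩, h7, h8⟩
  · intro Ω m0 μ _ A hm z hi hs hp
    refine ⟨fun m => measurableSet_filtrationOfSet' hm m, hs, ?_⟩
    have h0 : ∀ᵐ ω ∂μ, ∀ n : ℕ, (μ[(A (n + 1)).indicator (fun _ => (1 : ℝ)) | filtrationOfSet hm n]) ω =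
        μ.real (A (n + 1)) := by
      rw [ae_all_iff]
      intro n
      exact hi.condExp_indicator_filtrationOfSet_ae_eq hm n.lt_succ_self
    have h1 : Tendsto (fun n : ℕ => μ.real (A (n + 1)) * Real.log n / mertensProduct (z (n + 1)))
        (atTop ⊓ 𝓟 {n : ℕ | Sifted z (n + 1)}) (𝓝 1) := by
      have h2 : Tendsto (fun n : ℕ => n + 1) (atTop ⊓ 𝓟 {n : ℕ | Sifted z (n + 1)})
          (atTop ⊓ 𝓟 {m : ℕ | Sifted z m}) := by
        refine tendsto_inf.2 ⟨(tendsto_add_atTop_nat 1).mono_left inf_le_left, ?_⟩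
        exact tendsto_principal.2 (mem_inf_of_right fun n hn => hn)
      have h3 := (hp.comp h2).div (Pool.Agent.R528.RM.log_succ_ratio.mono_left
        (inf_le_left : atTop ⊓ 𝓟 {n : ℕ | Sifted z (n + 1)} ≤ atTop)) one_ne_zero
      rw [div_one] at h3
      refine h3.congr' ?_
      apply Filter.Eventually.filter_mono inf_le_left
      filter_upwards [eventually_gt_atTop 1] with n hn
      have hn' : (1 : ℝ) < n := by exact_mod_cast hn
      have hl : 0 < Real.log (n : ℝ) := Real.log_pos hn'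
      have hl2 : 0 < Real.log ((n + 1 : ℕ) : ℝ) := Real.log_pos (by push_cast; linarith)
      simp only [Pi.div_apply, Function.comp_apply]
      field_simp
    filter_upwards [h0] with ω h2
    refine h1.congr fun n => ?_
    rw [h2 n]

end Pool.Agent.Results.MP_d57abb_nt.EverySequentialModel
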