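import Mathlib
import Pool.Agent.R463.EX10
import Pool.Agent.Y879.GL.QuadU
import Pool.Agent.U53.HL.Five3

set_option autoImplicit false

/-!
# The integers `k` for which `k ^ 2 + 3 k + 1` is almost prime: exact patterns of consecutive gaps

`k` is rough at the level `w` if `k ^ 2 + 3 k + 1` has no prime factor `p ≤ w`. Every `k ≥ w` for which
`k ^ 2 + 3 k + 1` is a prime is rough, and if `k` is rough and `k ^ 2 + 3 k + 1 ≤ w ^ s`, then
`k ^ 2 + 3 k + 1` has at most `s` prime factors. For a finite set `H` let `dens w H` be the product of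
`1 - ω_H(p) / p` over the primes `p ≤ w`, where `ω_H(p)` is the number of the `n` modulo `p` for which `p`
divides some `(n + h) ^ 2 + 3 (n + h) + 1`, `h ∈ H`, and `V = dens w {0}`.

* `V log w → C e ^ (-γ)`, where `C` is the constant of the problem, and `1.771 < C / 2 < 1.776`, so that the
  conjectured limit `C / 2` does lie in the interval `[1.77, 1.78]` of the question (`C` is computed from
  `L(1, χ_5)`, the Euler product and a convergence theorem of the library).
* In all intervals `(Z, Z + Y]`, `Y ≥ w ^ s`, and for all positive integers `h_1, …, h_l` with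
  `(h_1 + ⋯ + h_l) V ≤ x₀` the number of the rough `k` in the interval whose next `l` rough integers are at
  the distances `h_1, …, h_l` from one another is `Y dens w H exp (-(h_1 + ⋯ + h_l) V)` up to `1 + O(ε)`, with
  `H = {0, h_1, h_1 + h_2, …}`.
* There are no local obstructions for sets of at most four elements: EVERY triple `(h_1, h_2, h_3)` of
  positive integers occurs as three successive gaps, in every interval. The quadruple `(1, 1, 1, 1)` never
  occurs.
-/

namespace Pool.Agent.Results.MP_d57abb_nt.ExactGapPatterns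

open Finset Filter

/-- `n` is rough at the level `w`: `n ^ 2 + 3 n + 1` has no prime factor `p ≤ w`. -/
def Rough (w n : ℕ) : Prop := ∀ p : ℕ, p.Prime → p ≤ w → ¬ p ∣ n ^ 2 + 3 * n + 1

/-- the number of the residues `n` modulo `p` for which `p` divides `(n + h) ^ 2 + 3 (n + h) + 1` for some
`h ∈ H` -/
def omega (H : Finset ℕ) (p : ℕ) : ℕ :=
  ((range p).filter (fun n : ℕ => ∃ h ∈ H, p ∣ (n + h) ^ 2 + 3 * (n + h) + 1)).card

/-- the product of `1 - omega(p) / p` over the primes `p ≤ w` -/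
noncomputable def dens (w : ℕ) (H : Finset ℕ) : ℝ :=
  ∏ p ∈ (Icc 1 w).filter Nat.Prime, (1 - (omega H p : ℝ) / p)

/-- the number of the integers `Z < n ≤ Z + Y` for which the rough integers in `[n, n + L]` are exactly the
integers `n + h`, `h ∈ H` -/
noncomputable def blocks (w : ℕ) (H : Finset ℕ) (L Z Y : ℕ) : ℕ :=
  Set.ncard {n : ℕ | Z < n ∧ n ≤ Z + Y ∧ ∀ j ≤ L, Rough w (n + j) ↔ j ∈ H}

/-- `n` is rough, and the next rough integers after `n` are `n + h_1`, `n + h_1 + h_2`, …, for the list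
`h_1, h_2, …` -/
def Consecutive (w : ℕ) : ℕ → List ℕ → Prop
  | n, [] => Rough w n
  | n, h :: t => Rough w n ∧ (∀ j : ℕ, 0 < j → j < h → ¬ Rough w (n + j)) ∧ Consecutive w (n + h) t

/-- the set `{0, h_1, h_1 + h_2, …}` -/
def offsets : List ℕ → Finset ℕ
  | [] => {0}
  | h :: t => insert 0 ((offsets t).image (fun j => h + j))

/-- the number of the integers `Z < n ≤ Z + Y` which are rough and followed by rough integers at the
successive distances `g` -/
noncomputable def runs (w : ℕ) (g : List ℕ) (Z Y : ℕ) : ℕ :=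
  Set.ncard {n : ℕ | Z < n ∧ n ≤ Z + Y ∧ Consecutive w n g}

/-- the partial products of the Hardy-Littlewood constant of `k ^ 2 + 3 k + 1` -/
noncomputable def partialC (y : ℕ) : ℝ :=
  ∏ p ∈ (range y).filter Nat.Prime, ((1 - (omega {0} p : ℝ) / p) / (1 - 1 / (p : ℝ)))

open Pool.Agent.W123.RP Pool.Agent.H373R2.T7 Pool.Agent.W123.RU Pool.Agent.W123.RU.Poly
  Pool.Agent.TH464.PO Pool.Agent.TH464.PW Pool.Agent.Y879.GL Pool.Agent.R463.PS
open Pool.Agent.U53.HL

lemma ev (i : Fin 1) (m : ℕ) : (qs 1 3 1 i).eval (m : ℤ) = ((m ^ 2 + 3 * m + 1 : ℕ) : ℤ) := by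
  unfold qs
  rw [quad_eval]
  push_cast
  ring

lemma sifted_iff (w s n : ℕ) (hs : s ≠ 0) : Sifted (qs 1 3 1) (w ^ s) s n ↔ Rough w n := by
  have hfl : ((w ^ s : ℕ) : ℝ) ^ (1 / (s : ℝ)) = w := by
    push_cast
    rw [one_div, Real.pow_rpow_inv_natCast (Nat.cast_nonneg w) hs]
  unfold Sifted Rough
  rw [hfl]
  constructor
  · intro h p hp hpw hd
    apply h p hp (by exact_mod_cast hpw) 0
    rw [ev]
    exact Int.natCast_dvd_natCast.2 hd
  · intro h p hp hpw i hd
    rw [ev] at hd
    exact h p hp (by exact_mod_cast hpw) (Int.natCast_dvd_natCast.1 hd)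

lemma floor_eq (w s : ℕ) (hs : s ≠ 0) : ⌊((w ^ s : ℕ) : ℝ) ^ (1 / (s : ℝ))⌋₊ = w := by
  push_cast
  rw [one_div, Real.pow_rpow_inv_natCast (Nat.cast_nonneg w) hs, Nat.floor_natCast]

lemma VH_eq' (w s : ℕ) (hs : s ≠ 0) (H : Finset ℕ) : VH (qs 1 3 1) H (w ^ s) s = dens w H := by
  classical
  unfold VH dens
  rw [floor_eq w s hs]
  apply prod_congr rfl
  intro p _
  have : omH (qs 1 3 1) H p = omega H p := by
    unfold omH omega
    congr 1
    apply filter_congr
    intro n _
    constructor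
    · rintro ⟨h, hh, i, hd⟩
      rw [ev] at hd
      exact ⟨h, hh, Int.natCast_dvd_natCast.1 hd⟩
    · rintro ⟨h, hh, hd⟩
      refine ⟨h, hh, 0, ?_⟩
      rw [ev]
      exact Int.natCast_dvd_natCast.2 hd
  rw [this]

lemma V_eq' (w s : ℕ) (hs : s ≠ 0) : V (qs 1 3 1) (w ^ s) s = dens w {0} := by
  classical
  unfold V dens
  rw [floor_eq w s hs]
  apply prod_congr rfl
  intro p _
  have : om (qs 1 3 1) p = omega {0} p := by
    unfold om omega
    congr 1
    apply filter_congr
    intro n _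
    constructor
    · rintro ⟨i, hd⟩
      rw [ev] at hd
      exact ⟨0, mem_singleton_self 0, Int.natCast_dvd_natCast.1 hd⟩
    · rintro ⟨h, hh, hd⟩
      rw [mem_singleton] at hh
      subst hh
      refine ⟨0, ?_⟩
      rw [ev]
      exact Int.natCast_dvd_natCast.2 hd
  rw [this]

lemma blocks_eq (w s : ℕ) (hs : s ≠ 0) (H : Finset ℕ) (L Z Y : ℕ) :
    exS (qs 1 3 1) H L (w ^ s) s Z Y = blocks w H L Z Y := by
  classical
  unfold exS blocks
  rw [← Set.ncard_coe_finset]
  congr 1
  ext n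
  simp only [coe_filter, mem_Ioc, Set.mem_ofPred_eq, sifted_iff w s _ hs, and_assoc]

lemma hirr : Irreducible (quad 1 3 1) := by
  apply quad_irr 1 3 1 one_ne_zero
  · rintro p hp ⟨h, _⟩
    have h2 : p ∣ 1 := by exact_mod_cast h
    exact hp.one_lt.ne' (Nat.dvd_one.1 h2)
  · rintro ⟨r, hr⟩
    have h1 : r ≤ 2 := by nlinarith
    have h2 : -2 ≤ r := by nlinarith
    interval_cases r <;> omega

lemma hadm (p : ℕ) (hp : p.Prime) : ∃ m : ℕ, ∀ i, ¬ (p : ℤ) ∣ (qs 1 3 1 i).eval (m : ℤ) := by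
  refine ⟨0, fun i => ?_⟩
  rw [ev]
  intro h
  have h1 : (p : ℤ) ∣ 1 := by simpa using h
  have h2 : p ∣ 1 := by exact_mod_cast h1
  exact hp.one_lt.ne' (Nat.dvd_one.1 h2)

lemma sys_ok (H U : ℝ) (hH : 3 ≤ H) : System 2 H U (qs 1 3 1) := by
  have hd : (quad 1 3 1).natDegree = 2 := quad_deg 1 3 1 one_ne_zero
  refine ⟨fun _ => hirr, ?_, ?_, hadm, ?_⟩
  · intro i
    unfold qs
    rw [hd]
    omega
  · intro i n
    have h1 := quad_coeff 1 3 1 n 3 (by norm_num) (by norm_num) (by norm_num)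
    have h2 : |(((quad 1 3 1).coeff n : ℤ) : ℝ)| ≤ 3 := by exact_mod_cast h1
    exact h2.trans hH
  · intro i j t ht _
    have hn := no_self (quad 1 3 1) (by rw [hd]; norm_num) (t : ℤ) (by exact_mod_cast (by omega : t ≠ 0))
    unfold qs
    refine ⟨fun heq => hn ?_, fun heq => hn ?_⟩
    · rw [← heq]
    · have : (quad 1 3 1).comp (Polynomial.X + Polynomial.C (t : ℤ)) = - quad 1 3 1 := by
        nth_rewrite 2 [heq]
        rw [neg_neg]
      rw [this]
      exact (Associated.refl _).neg_right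

/-- few prime factors -/
lemma few (z s N : ℕ) (hN : 0 < N) (hNz : N ≤ z ^ s) (h : ∀ p : ℕ, p.Prime → p ≤ z → ¬ p ∣ N) :
    N.primeFactorsList.length ≤ s := by
  by_contra hcon
  rw [not_le] at hcon
  have h1 : ∀ q ∈ N.primeFactorsList, z + 1 ≤ q := by
    intro q hq
    by_contra h2
    exact h q (Nat.prime_of_mem_primeFactorsList hq) (by omega) (Nat.dvd_of_mem_primeFactorsList hq)
  have h2 : (z + 1) ^ N.primeFactorsList.length ≤ N.primeFactorsList.prod := List.pow_card_le_prod _ _ h1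
  rw [Nat.prod_primeFactorsList hN.ne'] at h2
  have h3 : z ^ s < (z + 1) ^ N.primeFactorsList.length := by
    calc z ^ s ≤ (z + 1) ^ s := Nat.pow_le_pow_left (by omega) s
      _ < (z + 1) ^ N.primeFactorsList.length := Nat.pow_lt_pow_right (by
          rcases Nat.eq_zero_or_pos z with h4 | h4
          · exfalso
            subst h4
            rcases Nat.eq_zero_or_pos s with h5 | h5
            · subst h5
              have : N = 1 := by simp at hNz; omega
              rw [this] at hcon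
              simp at hcon
            · rw [Nat.zero_pow h5] at hNz
              omega
          · omega) hcon
  omega

/-! ### The local densities -/

lemma omega_zero (p : ℕ) (hp : p.Prime) : (omega {0} p : ℤ) = 1 + xi p := by
  rw [← roots p hp]
  unfold omega
  simp

lemma omega_zero_le (p : ℕ) (hp : p.Prime) : omega {0} p ≤ 2 := by
  have h1 := omega_zero p hp
  have h2 : xi p ≤ 1 := by unfold xi; split_ifs <;> norm_num
  omega

lemma omega_le (H : Finset ℕ) (p : ℕ) : omega H p ≤ p := by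
  unfold omega
  exact (card_filter_le _ _).trans (by simp)

lemma hmod (p n h : ℕ) : p ∣ (n + h) ^ 2 + 3 * (n + h) + 1 ↔ p ∣ (n % p + h) ^ 2 + 3 * (n % p + h) + 1 := by
  have h1 : (n + h) ^ 2 + 3 * (n + h) + 1 ≡ (n % p + h) ^ 2 + 3 * (n % p + h) + 1 [MOD p] :=
    ((((Nat.mod_modEq n p).symm.add_right h).pow 2).add (((Nat.mod_modEq n p).symm.add_right h).mul_left 3)).add_right 1
  exact h1.dvd_iff dvd_rfl

lemma hmod' (p n : ℕ) : p ∣ n ^ 2 + 3 * n + 1 ↔ p ∣ (n % p) ^ 2 + 3 * (n % p) + 1 := by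
  simpa using hmod p n 0

/-- union bound -/
lemma omega_card (H : Finset ℕ) (p : ℕ) (hp : 0 < p) : omega H p ≤ H.card * omega {0} p := by
  classical
  unfold omega
  have h1 : (range p).filter (fun n : ℕ => ∃ h ∈ H, p ∣ (n + h) ^ 2 + 3 * (n + h) + 1) ⊆
      H.biUnion (fun h => (range p).filter (fun n : ℕ => p ∣ (n + h) ^ 2 + 3 * (n + h) + 1)) := by
    intro n hn
    rw [mem_filter] at hn
    obtain ⟨h2, h, hh, h3⟩ := hn
    rw [mem_biUnion]
    exact ⟨h, hh, mem_filter.2 ⟨h2, h3⟩⟩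
  refine (card_le_card h1).trans ((card_biUnion_le).trans ?_)
  rw [← smul_eq_mul]
  refine sum_le_card_nsmul _ _ _ fun h _ => ?_
  refine card_le_card_of_injOn (fun n => (n + h) % p) ?_ ?_
  · intro n hn
    rw [mem_coe, mem_filter, mem_range] at hn
    rw [mem_coe, mem_filter, mem_range]
    refine ⟨Nat.mod_lt _ hp, 0, mem_singleton_self 0, ?_⟩
    rw [add_zero, ← hmod' p (n + h)]
    exact hn.2
  · intro a ha b hb hab
    rw [mem_coe, mem_filter, mem_range] at ha hb
    have h2 : a + h ≡ b + h [MOD p] := hab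
    have h3 := Nat.ModEq.add_right_cancel' h h2
    unfold Nat.ModEq at h3
    rwa [Nat.mod_eq_of_lt ha.1, Nat.mod_eq_of_lt hb.1] at h3

lemma omega_lt_iff (H : Finset ℕ) (p : ℕ) (hp : p.Prime) :
    omega H p < p ↔ ∃ n : ℕ, ∀ h ∈ H, ¬ p ∣ (n + h) ^ 2 + 3 * (n + h) + 1 := by
  constructor
  · intro h
    by_contra hcon
    push Not at hcon
    have h1 : (range p).filter (fun n : ℕ => ∃ h ∈ H, p ∣ (n + h) ^ 2 + 3 * (n + h) + 1) = range p := by
      rw [filter_eq_self]
      intro n _
      exact hcon n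
    unfold omega at h
    rw [h1, card_range] at h
    exact lt_irrefl _ h
  · rintro ⟨n, hn⟩
    have h1 : (range p).filter (fun n : ℕ => ∃ h ∈ H, p ∣ (n + h) ^ 2 + 3 * (n + h) + 1) ⊂ range p := by
      rw [filter_ssubset]
      refine ⟨n % p, mem_range.2 (Nat.mod_lt _ hp.pos), ?_⟩
      rintro ⟨h, hh, hd⟩
      exact hn h hh ((hmod p n h).2 hd)
    have h2 := card_lt_card h1
    rwa [card_range] at h2

lemma dens_pos_iff (w : ℕ) (H : Finset ℕ) : 0 < dens w H ↔
    ∀ p : ℕ, p.Prime → p ≤ w → ∃ n : ℕ, ∀ h ∈ H, ¬ p ∣ (n + h) ^ 2 + 3 * (n + h) + 1 := by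
  unfold dens
  constructor
  · intro h p hp hpw
    rw [← omega_lt_iff H p hp]
    by_contra hcon
    have h1 : omega H p = p := le_antisymm (omega_le H p) (not_lt.1 hcon)
    have h2 : (0 : ℝ) < p := by exact_mod_cast hp.pos
    have h3 : ∏ p ∈ (Icc 1 w).filter Nat.Prime, (1 - (omega H p : ℝ) / p) = 0 := by
      apply prod_eq_zero (mem_filter.2 ⟨mem_Icc.2 ⟨hp.one_lt.le, hpw⟩, hp⟩)
      rw [h1, div_self h2.ne', sub_self]
    rw [h3] at h
    exact lt_irrefl _ h
  · intro h
    apply prod_pos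
    intro p hp
    rw [mem_filter, mem_Icc] at hp
    have h1 := (omega_lt_iff H p hp.2).2 (h p hp.2 hp.1.2)
    have h2 : (0 : ℝ) < p := by exact_mod_cast hp.2.pos
    rw [sub_pos, div_lt_one h2]
    exact_mod_cast h1

lemma dens_le_one (w : ℕ) (H : Finset ℕ) : dens w H ≤ 1 := by
  unfold dens
  apply prod_le_one
  · intro p hp
    have h1 : (0 : ℝ) < p := by exact_mod_cast (mem_filter.1 hp).2.pos
    rw [sub_nonneg, div_le_one h1]
    exact_mod_cast omega_le H p
  · intro p _
    have : (0 : ℝ) ≤ (omega H p : ℝ) / p := by positivity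
    linarith

/-- no local obstructions for at most four elements -/
lemma four (H : Finset ℕ) (hH : H.card ≤ 4) (w : ℕ) : 0 < dens w H := by
  rw [dens_pos_iff]
  intro p hp _
  rw [← omega_lt_iff H p hp]
  refine lt_of_le_of_lt (omega_card H p hp.pos) ?_
  have h1 := omega_zero p hp
  rcases lt_or_ge p 11 with h | h
  · have h2 := hp.two_le
    have h3 : p = 2 ∨ p = 3 ∨ p = 5 ∨ p = 7 := by
      interval_cases p <;> first | omega | (exfalso; revert hp; norm_num)
    rcases h3 with rfl | rfl | rfl | rfl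
    · have : xi 2 = -1 := by decide
      have h4 : omega {0} 2 = 0 := by omega
      rw [h4]; omega
    · have : xi 3 = -1 := by decide
      have h4 : omega {0} 3 = 0 := by omega
      rw [h4]; omega
    · have : xi 5 = 0 := by decide
      have h4 : omega {0} 5 = 1 := by omega
      rw [h4]; omega
    · have : xi 7 = -1 := by decide
      have h4 : omega {0} 7 = 0 := by omega
      rw [h4]; omega
  · have h2 := omega_zero_le p hp
    calc H.card * omega {0} p ≤ 4 * 2 := Nat.mul_le_mul hH h2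
      _ < p := by omega

lemma five (n : ℕ) : ∃ j ≤ 4, 5 ∣ (n + j) ^ 2 + 3 * (n + j) + 1 := by
  have h : ∃ j ≤ 4, (n + j) % 5 = 1 := by
    rcases (by omega : n % 5 = 0 ∨ n % 5 = 1 ∨ n % 5 = 2 ∨ n % 5 = 3 ∨ n % 5 = 4) with h | h | h | h | h
    · exact ⟨1, by omega, by omega⟩
    · exact ⟨0, by omega, by omega⟩
    · exact ⟨4, by omega, by omega⟩
    · exact ⟨3, by omega, by omega⟩
    · exact ⟨2, by omega, by omega⟩
  obtain ⟨j, hj, h1⟩ := h
  refine ⟨j, hj, ?_⟩
  rw [hmod', h1]
  norm_num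

lemma dens_one (w : ℕ) : dens w {0} = Pool.Agent.Y781.JR.GG (w + 1) * CP (w + 1) := by
  unfold dens Pool.Agent.Y781.JR.GG CP
  have hs : (Icc 1 w).filter Nat.Prime = (range (w + 1)).filter Nat.Prime := by
    ext p
    rw [mem_filter, mem_filter, mem_Icc, mem_range]
    constructor
    · rintro ⟨⟨_, h2⟩, h3⟩
      exact ⟨by omega, h3⟩
    · rintro ⟨h2, h3⟩
      exact ⟨⟨h3.one_le, by omega⟩, h3⟩
  rw [hs, ← prod_mul_distrib]
  refine prod_congr rfl fun p hp => ?_
  have hpp := (mem_filter.1 hp).2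
  have h2 : (2 : ℝ) ≤ p := by exact_mod_cast hpp.two_le
  have h6 : ((omega {0} p : ℕ) : ℝ) = 1 + ((xi p : ℤ) : ℝ) := by exact_mod_cast omega_zero p hpp
  rw [h6]
  have h7 : (p : ℝ) - 1 ≠ 0 := by linarith
  have h8 : (p : ℝ) ≠ 0 := by linarith
  field_simp
  ring

lemma partialC_eq (y : ℕ) : partialC y = CP y := by
  unfold partialC CP
  refine prod_congr rfl fun p hp => ?_
  have hpp := (mem_filter.1 hp).2
  have h2 : (2 : ℝ) ≤ p := by exact_mod_cast hpp.two_le
  have h6 : ((omega {0} p : ℕ) : ℝ) = 1 + ((xi p : ℤ) : ℝ) := by exact_mod_cast omega_zero p hpp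
  rw [h6]
  have h7 : (p : ℝ) - 1 ≠ 0 := by linarith
  have h8 : (p : ℝ) ≠ 0 := by linarith
  have h9 : 1 - 1 / (p : ℝ) ≠ 0 := by
    rw [one_sub_div h8]
    exact div_ne_zero h7 h8
  field_simp
  ring

/-! ### Consecutive rough integers -/

lemma zero_mem (g : List ℕ) : 0 ∈ offsets g := by
  cases g <;> simp [offsets]

lemma offsets_le (g : List ℕ) : ∀ j ∈ offsets g, j ≤ g.sum := by
  induction g with
  | nil => simp [offsets]
  | cons h t ih =>
    intro j hj
    rw [offsets, mem_insert, mem_image] at hj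
    rw [List.sum_cons]
    rcases hj with rfl | ⟨i, hi, rfl⟩
    · omega
    · have := ih i hi
      omega

lemma offsets_card (g : List ℕ) : (offsets g).card ≤ g.length + 1 := by
  induction g with
  | nil => simp [offsets]
  | cons h t ih =>
    rw [offsets, List.length_cons]
    refine (card_insert_le _ _).trans ?_
    have := card_image_le (s := offsets t) (f := fun j => h + j)
    omega

lemma consecutive_iff (w : ℕ) (g : List ℕ) (hg : ∀ h ∈ g, 0 < h) (n : ℕ) :
    Consecutive w n g ↔ ∀ j ≤ g.sum, (Rough w (n + j) ↔ j ∈ offsets g) := by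
  induction g generalizing n with
  | nil =>
    rw [Consecutive, offsets, List.sum_nil]
    constructor
    · intro h j hj
      have : j = 0 := by omega
      subst this
      simp [h]
    · intro h
      have := h 0 le_rfl
      simpa using this
  | cons h t ih =>
    have hh : 0 < h := hg h List.mem_cons_self
    rw [Consecutive, ih (fun a ha => hg a (List.mem_cons_of_mem _ ha)) (n + h), offsets, List.sum_cons]
    constructor
    · rintro ⟨h1, h2, h3⟩ j hj
      rw [mem_insert, mem_image]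
      rcases Nat.lt_or_ge j h with h4 | h4
      · rcases Nat.eq_zero_or_pos j with h5 | h5
        · subst h5
          simp [h1]
        · constructor
          · intro h6
            exact absurd h6 (h2 j h5 h4)
          · rintro (h6 | ⟨i, _, h6⟩)
            · omega
            · omega
      · obtain ⟨i, rfl⟩ := Nat.exists_eq_add_of_le h4
        have h5 := h3 i (by omega)
        rw [add_assoc] at h5
        rw [h5]
        constructor
        · intro h6
          exact Or.inr ⟨i, h6, rfl⟩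
        · rintro (h6 | ⟨i', h6, h7⟩)
          · omega
          · have : i' = i := by omega
            rwa [this] at h6
    · intro h1
      refine ⟨?_, ?_, ?_⟩
      · have := (h1 0 (Nat.zero_le _)).2 (mem_insert_self _ _)
        simpa using this
      · intro j hj1 hj2 hr
        have h3 := (h1 j (by omega)).1 hr
        rw [mem_insert, mem_image] at h3
        rcases h3 with h3 | ⟨i, _, h3⟩
        · omega
        · omega
      · intro i hi
        have h3 := h1 (h + i) (by omega)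
        rw [← add_assoc] at h3
        rw [h3, mem_insert, mem_image]
        constructor
        · rintro (h4 | ⟨i', h4, h5⟩)
          · omega
          · have : i' = i := by omega
            rwa [this] at h4
        · intro h4
          exact Or.inr ⟨i, h4, rfl⟩

lemma runs_eq (w : ℕ) (g : List ℕ) (hg : ∀ h ∈ g, 0 < h) (Z Y : ℕ) :
    runs w g Z Y = blocks w (offsets g) g.sum Z Y := by
  unfold runs blocks
  congr 1
  ext n
  simp only [Set.mem_ofPred_eq, consecutive_iff w g hg n]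

lemma law (K : ℕ) (x₀ ε : ℝ) (hε : 0 < ε) : ∃ s w₀ : ℕ, ∀ w : ℕ, w₀ ≤ w → ∀ Z Y : ℕ, w ^ s ≤ Y →
    ∀ H : Finset ℕ, H.card ≤ K → 0 ∈ H → ∀ L : ℕ, (∀ h ∈ H, h ≤ L) → L * dens w {0} ≤ x₀ →
      |(blocks w H L Z Y : ℝ) - Y * dens w H * Real.exp (-(L * dens w {0}))| ≤
        ε * (Y * dens w H * Real.exp (-(L * dens w {0}))) := by
  obtain ⟨r0, hr0⟩ := blocks' 1 2 K 1 1 1 x₀ ε one_pos one_pos one_pos hε
  obtain ⟨s, hs⟩ : ∃ s, s = max r0 2 := ⟨_, rfl⟩
  have hs2 : 2 ≤ s := by rw [hs]; exact le_max_right _ _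
  have hs0 : s ≠ 0 := by omega
  obtain ⟨v, C, hv, hC, hV⟩ := V_fixed (qs 1 3 1) (fun _ => hirr)
    (fun _ => by unfold qs; rw [quad_deg 1 3 1 one_ne_zero]; norm_num)
    (fun _ => by unfold qs; rw [quad_lead 1 3 1 one_ne_zero]; norm_num)
    (fun _ _ _ => Subsingleton.elim _ _) hadm s hs2
  have hev := ((hr0 s (by rw [hs]; exact le_max_left _ _) C).and hV).and (eventually_ge_atTop 3)
  have hpow : Tendsto (fun w : ℕ => w ^ s) atTop atTop := tendsto_pow_atTop hs0
  obtain ⟨w0, hw0⟩ := eventually_atTop.1 (hpow.eventually hev)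
  refine ⟨s, w0, ?_⟩
  intro w hw Z Y hY H hK h0 L hL hLx
  obtain ⟨⟨h1, h2⟩, h3⟩ := hw0 w hw
  have h6 : (3 : ℝ) ≤ ((w ^ s : ℕ) : ℝ) := by exact_mod_cast h3
  have hV2 := h2.2
  rw [pow_one] at hV2
  have := h1 (qs 1 3 1) (by
      rw [Real.rpow_one]
      exact sys_ok _ _ h6) hV2 Z Y (by
      rw [Real.rpow_one]
      exact_mod_cast hY) H hK h0 L hL (by rw [V_eq' w s hs0]; exact hLx)
  rw [blocks_eq w s hs0, VH_eq' w s hs0, V_eq' w s hs0] at this
  exact this

/-- **Exact patterns of consecutive gaps of the `k` with `k ^ 2 + 3 k + 1` almost prime, and the constant of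
the question.** -/
theorem result :
    -- the `n ≥ w` for which `n ^ 2 + 3 n + 1` is a prime are rough at the level `w`
    (∀ w n : ℕ, w ≤ n → (n ^ 2 + 3 * n + 1).Prime → Rough w n) ∧
    -- the rough integers give almost primes
    (∀ w s n : ℕ, n ^ 2 + 3 * n + 1 ≤ w ^ s → Rough w n → (n ^ 2 + 3 * n + 1).primeFactorsList.length ≤ s) ∧
    -- the constant of the question and the density of the rough integers
    (∃ C : ℝ, 1.771 < C / 2 ∧ C / 2 < 1.776 ∧ Tendsto partialC atTop (nhds C) ∧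
      Tendsto (fun w : ℕ => dens w {0} * Real.log w) atTop (nhds (C * Real.exp (-Real.eulerMascheroniConstant)))) ∧
    -- the density of a pattern is positive if and only if there is no local obstruction, in particular if
    -- it has at most four elements
    (∀ (w : ℕ) (H : Finset ℕ), (0 < dens w H ↔
      ∀ p : ℕ, p.Prime → p ≤ w → ∃ n : ℕ, ∀ h ∈ H, ¬ p ∣ (n + h) ^ 2 + 3 * (n + h) + 1)) ∧
    (∀ (w : ℕ) (H : Finset ℕ), H.card ≤ 4 → 0 < dens w H) ∧
    -- the exact blocks
    (∀ (K : ℕ) (x₀ ε : ℝ), 0 < ε → ∃ s w₀ : ℕ, ∀ w : ℕ, w₀ ≤ w → ∀ Z Y : ℕ, w ^ s ≤ Y →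
      ∀ H : Finset ℕ, H.card ≤ K → 0 ∈ H → ∀ L : ℕ, (∀ h ∈ H, h ≤ L) → L * dens w {0} ≤ x₀ →
        |(blocks w H L Z Y : ℝ) - Y * dens w H * Real.exp (-(L * dens w {0}))| ≤
          ε * (Y * dens w H * Real.exp (-(L * dens w {0})))) ∧
    -- the exact statistics of the patterns of consecutive gaps
    (∀ (l : ℕ) (x₀ ε : ℝ), 0 < ε → ∃ s w₀ : ℕ, ∀ w : ℕ, w₀ ≤ w → ∀ Z Y : ℕ, w ^ s ≤ Y →
      ∀ g : List ℕ, g.length ≤ l → (∀ h ∈ g, 0 < h) → g.sum * dens w {0} ≤ x₀ →
        |(runs w g Z Y : ℝ) - Y * dens w (offsets g) * Real.exp (-(g.sum * dens w {0}))| ≤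
          ε * (Y * dens w (offsets g) * Real.exp (-(g.sum * dens w {0})))) ∧
    -- every triple of positive integers occurs as three successive gaps, `(1, 1, 1, 1)` never occurs
    (∀ a b c : ℕ, 0 < a → 0 < b → 0 < c → ∃ s w₀ : ℕ, ∀ w : ℕ, w₀ ≤ w → ∀ Z Y : ℕ, w ^ s ≤ Y →
      0 < runs w [a, b, c] Z Y) ∧
    (∀ w Z Y : ℕ, 5 ≤ w → runs w [1, 1, 1, 1] Z Y = 0) := by
  have hrun : ∀ (l : ℕ) (x₀ ε : ℝ), 0 < ε → ∃ s w₀ : ℕ, ∀ w : ℕ, w₀ ≤ w → ∀ Z Y : ℕ, w ^ s ≤ Y →
      ∀ g : List ℕ, g.length ≤ l → (∀ h ∈ g, 0 < h) → g.sum * dens w {0} ≤ x₀ →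
        |(runs w g Z Y : ℝ) - Y * dens w (offsets g) * Real.exp (-(g.sum * dens w {0}))| ≤
          ε * (Y * dens w (offsets g) * Real.exp (-(g.sum * dens w {0}))) := by
    intro l x₀ ε hε
    obtain ⟨s, w₀, h1⟩ := law (l + 1) x₀ ε hε
    refine ⟨s, w₀, fun w hw Z Y hY g hgl hg hx => ?_⟩
    rw [runs_eq w g hg Z Y]
    exact h1 w hw Z Y hY (offsets g) ((offsets_card g).trans (by omega)) (zero_mem g) g.sum (offsets_le g) hx
  refine ⟨?_, ?_, ⟨CC, CC_bounds.1, CC_bounds.2, ?_, ?_⟩, dens_pos_iff, fun w H hH => four H hH w, law, hrun, ?_, ?_⟩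
  · intro w n hwn h p hp hpw hd
    have h1 := (Nat.prime_dvd_prime_iff_eq hp h).1 hd
    have h2 : n ≤ n ^ 2 := Nat.le_self_pow (by norm_num) n
    omega
  · intro w s n hs h
    exact few w s (n ^ 2 + 3 * n + 1) (by omega) hs (fun p hp hpw => h p hp hpw)
  · exact CC_lim.congr fun y => (partialC_eq y).symm
  · have h1 := (CC_lim.comp (tendsto_add_atTop_nat 1)).mul Pool.Agent.Y781.JR.GG_mertens
    refine h1.congr fun w => ?_
    rw [dens_one]
    simp only [Function.comp]
    ring
  · intro a b c ha hb hc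
    obtain ⟨s, w₀, h1⟩ := hrun 3 ((a + b + c : ℕ) : ℝ) (1 / 2) (by norm_num)
    refine ⟨s, max w₀ 1, fun w hw Z Y hY => ?_⟩
    have hd1 := dens_le_one w {0}
    have hh0 : (0 : ℝ) ≤ ((a + b + c : ℕ) : ℝ) := Nat.cast_nonneg _
    have hsum : ([a, b, c] : List ℕ).sum = a + b + c := by simp; ring
    have h2 := h1 w ((le_max_left _ _).trans hw) Z Y hY [a, b, c] (by simp) (by
      intro h hh
      simp only [List.mem_cons, List.not_mem_nil, or_false] at hh
      rcases hh with rfl | rfl | rfl <;> assumption) (by rw [hsum]; nlinarith)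
    have h3 := four (offsets [a, b, c]) ((offsets_card _).trans (by simp)) w
    have hYpos : (0 : ℝ) < Y := by
      have hw1 : 0 < w := by
        have := (le_max_right w₀ 1).trans hw
        omega
      have : 0 < Y := lt_of_lt_of_le (pow_pos hw1 s) hY
      exact_mod_cast this
    have h4 : 0 < Y * dens w (offsets [a, b, c]) * Real.exp (-(([a, b, c] : List ℕ).sum * dens w {0})) := by
      positivity
    have h5 := (abs_le.1 h2).1
    have h6 : (0 : ℝ) < runs w [a, b, c] Z Y := by linarith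
    exact_mod_cast h6
  · intro w Z Y hw
    unfold runs
    have : {n : ℕ | Z < n ∧ n ≤ Z + Y ∧ Consecutive w n [1, 1, 1, 1]} = ∅ := by
      ext n
      simp only [Set.mem_ofPred_eq, Set.mem_empty_iff_false, iff_false]
      rintro ⟨_, _, h⟩
      simp only [Consecutive] at h
      obtain ⟨h0, -, h1, -, h2, -, h3, -, h4⟩ := h
      obtain ⟨j, hj, hd⟩ := five n
      interval_cases j
      · exact h0 5 (by norm_num) hw hd
      · exact h1 5 (by norm_num) hw hd
      · exact h2 5 (by norm_num) hw hd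
      · exact h3 5 (by norm_num) hw hd
      · exact h4 5 (by norm_num) hw hd
    rw [this, Set.ncard_empty]

end Pool.Agent.Results.MP_d57abb_nt.ExactGapPatterns
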