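import Mathlib
import Pool.Agent.U364.ST.Uni
import Pool.Agent.U364.ST.Adm

/-!
# Strings of consecutive primes `p` with almost prime `k ^ 2 + 3 k + 1`, `k = h p`, uniformly in the multiplier `h`

The question is about primes `k ^ 2 + 3 k + 1`. Here `k` is restricted to the multiples `k = h p` of the primes.

Let `m ≥ 1` and `A` be given. There are `C`, `B`, `r` and `δ > 0` such that for every finite set `T` of at least `C` nonnegative
integers (the patterns are taken from it) and all large `N` the following holds for EVERY multiplier `1 ≤ h ≤ N ^ A`: at least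
`1 / C` of all the `m`-element subsets `H` of `T` are the patterns of strings of `m` CONSECUTIVE primes `p` for all of which
the numbers `k ^ 2 + 3 k + 1`, `k = h p`, are almost prime (at most `r` prime factors, all of them at least `N ^ δ`), and each of these patterns
occurs at least `N / (log N) ^ B` times in `(N, 2 N]`. The primes can be taken from any residue class `a` modulo a
squarefree `q` for which this is possible. `C`, `B` and `δ` do not depend on `A`.

Proof: the theorem on strings of consecutive primes with almost prime values, uniformly in the polynomial (starting files,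
`Pool.Agent.R498.MP.stringsUR`), the passage to a positive proportion of the patterns (starting files,
`Pool.Agent.Helper32K9.Str`), uniformly in the multiplier (`Pool.Agent.U364.ST.Uni`).
-/

set_option autoImplicit false

namespace Pool.Agent.Results.MP_d57abb_nt.StringsOfMultiples

open Filter Polynomial

/-- `k ^ 2 + 3 k + 1`, `k = h p`, has at most `r` prime factors, counted with multiplicity, all of them at least `w`. -/
def Good (h r : ℕ) (w : ℝ) (p : ℕ) : Prop :=
  ((h * p) ^ 2 + 3 * (h * p) + 1).primeFactorsList.length ≤ r ∧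
    ∀ q : ℕ, q.Prime → q ∣ (h * p) ^ 2 + 3 * (h * p) + 1 → w ≤ q

/-- The pattern `H` occurs at least `N / (log N) ^ B` times in `(N, 2 N]`: there are at least that many `n > N` with
`n + max H ≤ 2 N` such that the primes in `[n, n + max H]` are exactly the numbers `n + s`, `s ∈ H`, and these primes are
`≡ a` modulo `q` and good with the parameters `r` and `N ^ δ`. -/
def Occurs (h q a r : ℕ) (δ : ℝ) (B N : ℕ) (H : Finset ℕ) : Prop :=
  ∃ F : Finset ℕ, (N : ℝ) ≤ Real.log N ^ B * F.card ∧
    ∀ n ∈ F, N < n ∧ n + H.sup id ≤ 2 * N ∧ (∀ y ≤ H.sup id, (n + y).Prime ↔ y ∈ H) ∧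
      ∀ s ∈ H, n + s ≡ a [MOD q] ∧ Good h r ((N : ℝ) ^ δ) (n + s)

/-- the polynomial -/
noncomputable def P : ℤ[X] := X ^ 2 + 3 * X + 1

theorem P_eval (n : ℤ) : P.eval n = n ^ 2 + 3 * n + 1 := by
  unfold P
  simp

theorem P_cast (n : ℕ) : P.eval (n : ℤ) = ((n ^ 2 + 3 * n + 1 : ℕ) : ℤ) := by
  rw [P_eval]
  push_cast
  ring


/-- **Strings of consecutive primes `p` with almost prime `k ^ 2 + 3 k + 1`, `k = h p`, uniformly in `h ≤ N ^ A`.** -/
theorem result (q : ℕ) (hq : Squarefree q) (m : ℕ) (hm : 1 ≤ m) :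
    ∃ (C B : ℕ) (δ : ℝ), 0 < C ∧ 0 < δ ∧ ∀ A : ℕ, ∃ r : ℕ, ∀ T : Finset ℕ, C ≤ T.card →
      ∀ᶠ N : ℕ in atTop, ∀ h : ℕ, 1 ≤ h → h ≤ N ^ A → ∀ a : ℕ, IsCoprime ((a : ℤ) * (((h : ℤ) * a) ^ 2 + 3 * ((h : ℤ) * a) + 1)) (q : ℤ) →
      T.card.choose m ≤ C * {H : Finset ℕ | H ⊆ T ∧ H.card = m ∧ Occurs h q a r δ B N H}.ncard := by
  obtain ⟨C₀, B, δ, hC, hδ, hmain⟩ := Pool.Agent.U364.ST.mult_prop P (fun n hn => by
      rw [P_eval]
      intro h0
      have h1 : n ∣ 1 := ⟨-(n + 3), by linarith [sq n, h0]⟩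
      have h2 := Int.isUnit_iff.1 (isUnit_of_dvd_one h1)
      rcases h2 with h2 | h2 <;> · subst h2; norm_num at h0) q hq m hm
  refine ⟨C₀, B, δ, hC, hδ, fun A => ?_⟩
  obtain ⟨r, hr⟩ := hmain A
  refine ⟨r, fun T hT => ?_⟩
  filter_upwards [hr T hT] with N hN
  intro h hh1 hhA a ha
  refine hN h hh1 hhA (fun p hp => ?_) a (by rw [P_eval]; exact ha) (Good h) (fun r w p hp _ hAP => ?_)
  · refine Pool.Agent.U364.ST.adm_h P h p hp (fun hph => ?_) (fun hph => ?_)
    · rw [P_eval]
      exact Pool.Agent.U364.ST.not_dvd_unit p hp _ (Or.inl (by norm_num))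
    · refine ⟨-1, Pool.Agent.U364.ST.not_dvd_unit p hp _ (Or.inr rfl), ?_⟩
      rw [P_eval]
      exact Pool.Agent.U364.ST.not_dvd_unit p hp _ (Or.inr (by norm_num))
  · have e : (h : ℤ) * (p : ℤ) = ((h * p : ℕ) : ℤ) := by push_cast; ring
    rw [e, P_cast] at hAP
    exact Pool.Agent.R498.MP.AP_nat r w _ hAP

end Pool.Agent.Results.MP_d57abb_nt.StringsOfMultiples
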